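import Pool.Agent.U211.ISO.Deg

/-!
# Mollification with constant radius of maps of small distortion
-/

set_option autoImplicit false

open Set Filter Topology Metric Function MeasureTheory
open scoped Manifold ContDiff unitInterval

noncomputable section

namespace Pool.Agent.U211.ISO

open Pool.Agent.Y522 Pool.Agent.U211.BL

variable {n : ℕ} {r₀ : ℝ} (K : Ker n r₀)

/-- the mollification with radius `t` -/
def FM (F : E n → E n) (t : ℝ) (x : E n) : E n := ∫ s, K.k s • F (x + t • s)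

theorem FM_zero (F : E n → E n) (x : E n) : FM K F 0 x = F x := by
  unfold FM
  have : ∀ s, K.k s • F (x + (0 : ℝ) • s) = K.k s • F x := by
    intro s
    rw [zero_smul, add_zero]
  simp only [this]
  rw [integral_smul_const, K.int, one_smul]

theorem FM_smooth {F : E n → E n} (hF : ContDiff ℝ ∞ F) :
    ContDiff ℝ ∞ (fun q : E n × ℝ => FM K F q.2 q.1) := moll_joint K hF

theorem k_id_integrable : Integrable (fun s => K.k s • s) := by
  have := k_smul_integrable K (f := fun s => s) continuousOn_id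
  exact this

theorem k_id_zero : ∫ s, K.k s • s = 0 := by
  have h1 : ∫ s, K.k s • s = ∫ s, K.k (-s) • (-s) :=
    (integral_neg_eq_self (fun s => K.k s • s) volume).symm
  have h2 : ∫ s, K.k (-s) • (-s) = -∫ s, K.k s • s := by
    rw [← integral_neg]
    congr 1
    funext s
    rw [Ker.neg, smul_neg]
  rw [h2] at h1
  have h3 : (2 : ℝ) • ∫ s, K.k s • s = 0 := by
    rw [two_smul]
    nth_rewrite 1 [h1]
    exact neg_add_cancel _
  exact (smul_eq_zero.1 h3).resolve_left two_ne_zero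

/-- the mollification of the identity is the identity -/
theorem FM_id (t : ℝ) (x : E n) : FM K (fun y => y) t x = x := by
  unfold FM
  have h1 : ∀ s, K.k s • (x + t • s) = K.k s • x + t • (K.k s • s) := by
    intro s
    rw [smul_add, smul_comm]
  simp only [h1]
  have h2 : Integrable (fun s => t • (K.k s • s)) := (k_id_integrable K).smul t
  rw [integral_add (K.integrable.smul_const x) h2, integral_smul_const,
    integral_smul, k_id_zero, K.int, one_smul, smul_zero, add_zero]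

theorem FM_off {F : E n → E n} {R t r : ℝ} (ht : |t| ≤ r) (h : ∀ x, R ≤ ‖x‖ → F x = x) {x : E n}
    (hx : R + r ≤ ‖x‖) : FM K F t x = x := by
  refine Eq.trans ?_ (FM_id K t x)
  unfold FM
  congr 1
  funext s
  by_cases hs : K.k s = 0
  · rw [hs, zero_smul, zero_smul]
  · rw [h]
    have h1 : ‖t • s‖ ≤ r := by
      rw [norm_smul, Real.norm_eq_abs]
      calc |t| * ‖s‖ ≤ |t| * 1 := mul_le_mul_of_nonneg_left (K.lt hs).le (abs_nonneg _)
        _ ≤ r := by rw [mul_one]; exact ht
    have h2 := norm_sub_le (x + t • s) (t • s)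
    rw [add_sub_cancel_right] at h2
    linarith

/-- the positivity of the derivative -/
theorem FM_deriv_ne (hr0 : 0 < r₀) {F : E n → E n} (hF : Continuous F) {ρ a t : ℝ} {x : E n}
    (ha : 0 < a) (hρ : 1 ≤ ρ) (hρn : (ρ ^ 2 - 1) * Real.sqrt n < (ρ ^ 2 + 1) * r₀) (ht : 0 < t)
    (hlow : ∀ p ∈ closedBall x t, ∀ q ∈ closedBall x t, a * ‖p - q‖ ≤ ‖F p - F q‖)
    (hup : ∀ p ∈ closedBall x t, ∀ q ∈ closedBall x t, ‖F p - F q‖ ≤ ρ * (a * ‖p - q‖))
    {w : E n} (hw : ‖w‖ = 1) : ∃ D : E n →L[ℝ] E n, HasFDerivAt (FM K F t) D x ∧ D w ≠ 0 := by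
  obtain ⟨D, hD, hDw⟩ := moll_hasFDerivAt K hF.locallyIntegrable ht x
  refine ⟨D, hD, fun h0 => ?_⟩
  obtain ⟨qp, hqp⟩ : ∃ qp, qp = x + (t * 1) • w := ⟨_, rfl⟩
  obtain ⟨qm, hqm⟩ : ∃ qm, qm = x - (t * 1) • w := ⟨_, rfl⟩
  have hmp : qp ∈ closedBall x t := by
    rw [hqp, mem_closedBall, dist_eq_norm, add_sub_cancel_left, norm_smul, hw, mul_one, mul_one,
      Real.norm_of_nonneg ht.le]
  have hmm : qm ∈ closedBall x t := by
    rw [hqm, mem_closedBall, dist_eq_norm, sub_sub_cancel_left, norm_neg, norm_smul, hw, mul_one,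
      mul_one, Real.norm_of_nonneg ht.le]
  have hmain := main_est K hr0 ha hρ ht hw (T := 1) zero_le_one one_le_two (le_refl 0) zero_le_one
    (subset_refl _) hF.continuousOn hmp hmm hlow hup (by rw [hqp]; simp) (by rw [hqm]; simp)
  obtain ⟨e, he⟩ : ∃ e, e = F qp - F qm := ⟨_, rfl⟩
  rw [← he] at hmain
  have hcont : ContinuousOn (fun s => F (x + t • s)) (closedBall (0 : E n) 1) := by fun_prop
  have h1 : ∫ s, K.g s * (inner ℝ s w * inner ℝ (F (x + t • s)) e) = 0 := by
    have h2 : ∫ s, (K.g s * inner ℝ s w) • F (x + t • s) = 0 := by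
      rw [hDw w] at h0
      exact (smul_eq_zero.1 h0).resolve_left (inv_ne_zero ht.ne')
    have h3 := integral_inner (𝕜 := ℝ) (g_smul_integrable K hcont w) e
    rw [h2, inner_zero_right] at h3
    rw [← h3]
    congr 1
    funext s
    rw [inner_smul_right, real_inner_comm (F (x + t • s)) e]
    ring
  rw [h1] at hmain
  have h4 : (ρ ^ 2 - 1) * (Real.sqrt n / r₀) < ρ ^ 2 + 1 := by
    rw [← mul_div_assoc, div_lt_iff₀ hr0]
    exact hρn
  have h5 : 0 < a ^ 2 * t ^ 2 / 2 * (2 * 1 * (1 + ρ ^ 2) - ((ρ ^ 2 - 1) * (1 + 1 ^ 2) +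
      13 * ρ ^ 2 * 0) * (Real.sqrt n / r₀)) := by
    apply mul_pos (by positivity)
    nlinarith
  linarith

/-- the derivative of the mollification of a map close to the identity -/
theorem FM_deriv_close (hr0 : 0 < r₀) {F : E n → E n} (hF : Continuous F) {δ t : ℝ} {x : E n}
    (ht : 0 < t) (hδ : ∀ y, ‖F y - y‖ ≤ δ * t) {w : E n} (hw : ‖w‖ = 1) :
    ∃ D : E n →L[ℝ] E n, HasFDerivAt (FM K F t) D x ∧ ‖D w - w‖ ≤ δ * (Real.sqrt n / r₀) := by
  obtain ⟨D, hD, hDw⟩ := moll_hasFDerivAt K hF.locallyIntegrable ht x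
  obtain ⟨D', hD', hDw'⟩ := moll_hasFDerivAt K (continuous_id (X := E n)).locallyIntegrable ht x
  have h1 : D' = ContinuousLinearMap.id ℝ (E n) := by
    have h2 : (fun y : E n => ∫ s, K.k s • (id (y + t • s) : E n)) = fun y => y := by
      funext y
      exact FM_id K t y
    rw [h2] at hD'
    exact hD'.unique (hasFDerivAt_id x)
  refine ⟨D, hD, ?_⟩
  have h3 : w = t⁻¹ • ∫ s, (K.g s * inner ℝ s w) • (x + t • s) := by
    have h4 := hDw' w
    rw [h1] at h4
    exact h4
  have hc1 : ContinuousOn (fun s => F (x + t • s)) (closedBall (0 : E n) 1) := by fun_prop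
  have hc2 : ContinuousOn (fun s => x + t • s) (closedBall (0 : E n) 1) := by fun_prop
  have h5 : D w - w = t⁻¹ • ∫ s, (K.g s * inner ℝ s w) • (F (x + t • s) - (x + t • s)) := by
    have h51 : ∫ s, (K.g s * inner ℝ s w) • (F (x + t • s) - (x + t • s)) =
        (∫ s, (K.g s * inner ℝ s w) • F (x + t • s)) - ∫ s, (K.g s * inner ℝ s w) • (x + t • s) := by
      rw [← integral_sub (g_smul_integrable K hc1 w) (g_smul_integrable K hc2 w)]
      congr 1
      funext s
      rw [smul_sub]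
    rw [h51, smul_sub, ← h3, ← hDw w]
  have hδ0 : 0 ≤ δ := by
    have := (norm_nonneg _).trans (hδ 0)
    by_contra hcon
    push Not at hcon
    nlinarith
  have h6 : ‖∫ s, (K.g s * inner ℝ s w) • (F (x + t • s) - (x + t • s))‖ ≤
      ∫ s, K.g s * |inner ℝ s w| * (δ * t) := by
    apply norm_integral_le_of_norm_le
    · have := (K.g_mul_integrable (f := fun s => |(inner ℝ s w : ℝ)|) (by fun_prop)).mul_const (δ * t)
      exact this
    · refine Eventually.of_forall fun s => ?_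
      rw [norm_smul, Real.norm_eq_abs, abs_mul, abs_of_nonneg (K.gnonneg s)]
      exact mul_le_mul_of_nonneg_left (hδ _) (mul_nonneg (K.gnonneg s) (abs_nonneg _))
  rw [h5, norm_smul, Real.norm_of_nonneg (inv_nonneg.2 ht.le)]
  rw [integral_mul_const] at h6
  have h7 := K.int_abs_le hr0 hw
  calc t⁻¹ * ‖∫ s, (K.g s * inner ℝ s w) • (F (x + t • s) - (x + t • s))‖
      ≤ t⁻¹ * ((∫ s, K.g s * |inner ℝ s w|) * (δ * t)) :=
        mul_le_mul_of_nonneg_left h6 (inv_nonneg.2 ht.le)
    _ = (∫ s, K.g s * |inner ℝ s w|) * δ := by field_simp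
    _ ≤ (Real.sqrt n / r₀) * δ := mul_le_mul_of_nonneg_right h7 hδ0
    _ = δ * (Real.sqrt n / r₀) := mul_comm _ _

end Pool.Agent.U211.ISO
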