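import Pool.Agent.U211.BL.Der2

/-!
# Local homeomorphisms of `ℝⁿ` which are the identity off a compact set are bijective
-/

set_option autoImplicit false

open Set Filter Topology Metric Function
open scoped Manifold ContDiff unitInterval

noncomputable section

namespace Pool.Agent.U211.ISO

open Pool.Agent.Y522

variable {n : ℕ}

/-- a map which is the identity off a ball is closed -/
theorem closed_of_id_off {f : E n → E n} (hf : Continuous f) {R : ℝ}
    (h : ∀ x, R ≤ ‖x‖ → f x = x) : IsClosedMap f := by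
  intro C hC
  have h1 : f '' C = f '' (C ∩ closedBall 0 R) ∪ (C ∩ {x | R ≤ ‖x‖}) := by
    ext y
    constructor
    · rintro ⟨x, hx, rfl⟩
      rcases le_total ‖x‖ R with h2 | h2
      · exact Or.inl ⟨x, ⟨hx, by simpa using h2⟩, rfl⟩
      · refine Or.inr ?_
        rw [h x h2]
        exact ⟨hx, h2⟩
    · rintro (⟨x, ⟨hx, -⟩, rfl⟩ | ⟨hy, hy2⟩)
      · exact ⟨x, hx, rfl⟩
      · exact ⟨y, hy, h y hy2⟩
  rw [h1]
  apply IsClosed.union
  · exact (((isCompact_closedBall (0 : E n) R).inter_left hC).image hf).isClosed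
  · exact hC.inter (isClosed_le continuous_const continuous_norm)

/-- a local homeomorphism which is the identity off a ball is bijective -/
theorem bij_of_id_off {f : E n → E n} (hf : IsLocalHomeomorph f) {R : ℝ}
    (h : ∀ x, R ≤ ‖x‖ → f x = x) : Bijective f := by
  have hc : Continuous f := hf.continuous
  have hcl := closed_of_id_off hc h
  have hfin : ∀ x ∈ (univ : Set (E n)), (f ⁻¹' {x}).Finite := by
    intro y _
    have hK : IsCompact (f ⁻¹' {y}) := by
      apply ((isCompact_closedBall (0 : E n) (max R ‖y‖))).of_isClosed_subset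
        (isClosed_singleton.preimage hc)
      intro x hx
      rw [mem_closedBall_zero_iff]
      rcases le_total ‖x‖ R with h2 | h2
      · exact h2.trans (le_max_left _ _)
      · have h3 : x = y := by rw [← h x h2]; exact hx
        rw [h3]
        exact le_max_right _ _
    apply hK.finite
    apply IsDiscrete.of_openPartialHomeomorph f subset_rfl
    intro e _
    obtain ⟨φ, hφ, he⟩ := hf e
    exact ⟨φ, hφ, he.symm⟩
  have hcov : IsCoveringMap f := by
    rw [isCoveringMap_iff_isCoveringMapOn_univ]
    apply hcl.isCoveringMapOn_of_isLocalHomeomorphOn hfin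
    rw [preimage_univ]
    exact isLocalHomeomorph_iff_isLocalHomeomorphOn_univ.1 hf
  -- the homotopy from `f` to the identity
  obtain ⟨H, hH⟩ : ∃ H : C(I × E n, E n), ∀ p, H p = (1 - (p.1 : ℝ)) • f p.2 + (p.1 : ℝ) • p.2 :=
    ⟨⟨fun p => (1 - (p.1 : ℝ)) • f p.2 + (p.1 : ℝ) • p.2, by fun_prop⟩, fun p => rfl⟩
  have h0 : ∀ x, H (0, x) = f ((ContinuousMap.id (E n)) x) := by
    intro x
    rw [hH]
    simp
  obtain ⟨L, hL⟩ : ∃ L, L = hcov.liftHomotopy H (ContinuousMap.id (E n)) h0 := ⟨_, rfl⟩
  have hlift : f ∘ L = H := by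
    rw [hL]
    exact hcov.liftHomotopy_lifts H (ContinuousMap.id (E n)) h0
  obtain ⟨s, hs⟩ : ∃ s : E n → E n, s = fun y => L (1, y) := ⟨_, rfl⟩
  have hsc : Continuous s := by
    rw [hs]
    exact L.continuous.comp (by fun_prop)
  have hgs : ∀ y, f (s y) = y := by
    intro y
    rw [hs]
    have h2 := congrFun hlift (1, y)
    simp only [comp_apply] at h2
    rw [h2, hH]
    simp
  have hid : f ∘ s = id := funext hgs
  have hsl : IsLocalHomeomorph s :=
    IsLocalHomeomorph.of_comp (by rw [hid]; exact (Homeomorph.refl (E n)).isLocalHomeomorph) hf hsc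
  have hopen : IsOpen (range s) := hsl.isOpenMap.isOpen_range
  have hclosed : IsClosed (range s) := by
    have h3 : range s = {x | s (f x) = x} := by
      ext x
      constructor
      · rintro ⟨y, rfl⟩
        show s (f (s y)) = s y
        rw [hgs]
      · intro hx
        exact ⟨f x, hx⟩
    rw [h3]
    exact isClosed_eq (hsc.comp hc) continuous_id
  have huniv : range s = univ := IsClopen.eq_univ ⟨hclosed, hopen⟩ ⟨s 0, mem_range_self _⟩
  constructor
  · intro a b hab
    obtain ⟨y, rfl⟩ : a ∈ range s := huniv ▸ mem_univ a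
    obtain ⟨z, rfl⟩ : b ∈ range s := huniv ▸ mem_univ b
    rw [hgs, hgs] at hab
    rw [hab]
  · exact fun y => ⟨s y, hgs y⟩

end Pool.Agent.U211.ISO
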