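import Pool.Agent.U211.ISO.Mfd

/-!
# Global bounds
-/

set_option autoImplicit false

open Set Filter Topology Metric Function MeasureTheory
open scoped Manifold ContDiff unitInterval

noncomputable section

namespace Pool.Agent.U211.ISO

open Pool.Agent.Y522 Pool.Agent.U211.BL

variable {n : ℕ}

/-- a map which is the identity off a ball moves the points by a bounded amount -/
theorem exists_move {F : E n → E n} (hF : Continuous F) {R : ℝ} (hR : ∀ x, R ≤ ‖x‖ → F x = x) :
    ∃ C : ℝ, ∀ x, ‖F x - x‖ ≤ C := by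
  obtain ⟨C, hC⟩ := (isCompact_closedBall (0 : E n) R).exists_bound_of_continuousOn
    (f := fun x => F x - x) (by fun_prop)
  refine ⟨max C 0, fun x => ?_⟩
  rcases le_total ‖x‖ R with h | h
  · exact (hC x (by simpa using h)).trans (le_max_left _ _)
  · rw [hR x h, sub_self, norm_zero]
    exact le_max_right _ _

/-- bounds for the derivative give bounds for the distances -/
theorem dist_of_deriv {F : E n → E n} (hF : ContDiff ℝ ∞ F) {R : ℝ} (hR : ∀ x, R ≤ ‖x‖ → F x = x)
    {a b : ℝ} (ha : 0 < a) (hb : 0 ≤ b)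
    (h : ∀ x w, a * ‖w‖ ≤ ‖fderiv ℝ F x w‖ ∧ ‖fderiv ℝ F x w‖ ≤ b * ‖w‖) (p q : E n) :
    a * ‖p - q‖ ≤ ‖F p - F q‖ ∧ ‖F p - F q‖ ≤ b * ‖p - q‖ := by
  have hLD : ∀ x, LD n F x := fun x =>
    LD_of_pos (Eventually.of_forall fun y => hF.contDiffAt) fun w hw h0 => by
      have := (h x w).1
      rw [h0, norm_zero, hw] at this
      linarith
  have hl : IsLocalDiffeomorph (𝓡 n) (𝓡 n) ∞ F := hLD
  have hbij := bij_of_id_off hl.isLocalHomeomorph hR
  constructor
  · obtain ⟨G, hG⟩ : ∃ G : E n → E n, G = (hl.diffeomorphOfBijective hbij).symm := ⟨_, rfl⟩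
    have hGs : ContDiff ℝ ∞ G := by
      rw [hG]
      exact contMDiff_iff_contDiff.1 (hl.diffeomorphOfBijective hbij).symm.contMDiff
    have hGF : ∀ x, G (F x) = x := by
      intro x
      rw [hG]
      exact (hl.diffeomorphOfBijective hbij).symm_apply_apply x
    have hFG : ∀ y, F (G y) = y := by
      intro y
      rw [hG]
      exact (hl.diffeomorphOfBijective hbij).apply_symm_apply y
    have hd : ∀ y v, ‖fderiv ℝ G y v‖ ≤ a⁻¹ * ‖v‖ := by
      intro y v
      have h1 : HasFDerivAt (fun y => F (G y)) ((fderiv ℝ F (G y)).comp (fderiv ℝ G y)) y :=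
        ((hF.differentiable (by simp) (G y)).hasFDerivAt).comp y
          (hGs.differentiable (by simp) y).hasFDerivAt
      have h2 : (fun y => F (G y)) = id := funext hFG
      rw [h2] at h1
      have h3 := h1.unique (hasFDerivAt_id y)
      have h4 : fderiv ℝ F (G y) (fderiv ℝ G y v) = v := congrArg (fun T : E n →L[ℝ] E n => T v) h3
      have h5 := (h (G y) (fderiv ℝ G y v)).1
      rw [h4] at h5
      rw [inv_mul_eq_div, le_div_iff₀ ha]
      linarith
    have h6 := Convex.norm_image_sub_le_of_norm_fderiv_le (𝕜 := ℝ) (f := G) (C := a⁻¹)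
      (s := univ) (x := F q) (y := F p) (fun y _ => hGs.differentiable (by simp) y)
      (fun y _ => ContinuousLinearMap.opNorm_le_bound _ (inv_nonneg.2 ha.le) (hd y)) convex_univ
      (mem_univ _) (mem_univ _)
    rw [hGF, hGF, inv_mul_eq_div, le_div_iff₀ ha] at h6
    linarith
  · exact Convex.norm_image_sub_le_of_norm_fderiv_le (𝕜 := ℝ) (f := F) (C := b)
      (s := univ) (x := q) (y := p) (fun y _ => hF.differentiable (by simp) y)
      (fun y _ => ContinuousLinearMap.opNorm_le_bound _ hb fun v => (h y v).2) convex_univ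
      (mem_univ _) (mem_univ _)

end Pool.Agent.U211.ISO
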