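import Pool.Agent.U211.ISO.Path
import Pool.Agent.U211.BL.Trans

/-!
# Transfer of the isotopy to manifolds
-/

set_option autoImplicit false

open Set Filter Topology Metric Function MeasureTheory
open scoped Manifold ContDiff unitInterval

noncomputable section

namespace Pool.Agent.U211.ISO

open Pool.Agent.Y522 Pool.Agent.U211.BL

variable {n : ℕ} {X : Type} [TopologicalSpace X] [ChartedSpace (E n) X]

/-- `φ` is a diffeomorphism -/
def IsDiffeo (n : ℕ) {X : Type} [TopologicalSpace X] [ChartedSpace (E n) X] (φ : X → X) : Prop :=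
  ∃ Φ : X ≃ₘ^∞⟮𝓡 n, 𝓡 n⟯ X, ∀ x, Φ x = φ x

/-- `K` is a smooth path of diffeomorphisms from the identity to `φ` -/
def IsSmoothIsotopy (n : ℕ) {X : Type} [TopologicalSpace X] [ChartedSpace (E n) X] (φ : X → X)
    (K : ℝ × X → X) : Prop :=
  ContMDiff ((𝓘(ℝ, ℝ)).prod (𝓡 n)) (𝓡 n) ∞ K ∧ (∀ t, IsDiffeo n (fun x => K (t, x))) ∧
    (∀ x, K (0, x) = x) ∧ ∀ x, K (1, x) = φ x

theorem IsSmoothIsotopy.comp {φ ψ : X → X} {K L : ℝ × X → X} (hK : IsSmoothIsotopy n φ K)
    (hL : IsSmoothIsotopy n ψ L) :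
    IsSmoothIsotopy n (fun x => φ (ψ x)) (fun q => K (q.1, L q)) := by
  obtain ⟨k1, k2, k3, k4⟩ := hK
  obtain ⟨l1, l2, l3, l4⟩ := hL
  refine ⟨k1.comp (contMDiff_fst.prodMk l1), fun t => ?_, fun x => ?_, fun x => ?_⟩
  · obtain ⟨Φ, hΦ⟩ := k2 t
    obtain ⟨Ψ, hΨ⟩ := l2 t
    refine ⟨Ψ.trans Φ, fun x => ?_⟩
    show Φ (Ψ x) = _
    rw [hΦ, hΨ]
  · show K (0, L (0, x)) = x
    rw [l3, k3]
  · show K (1, L (1, x)) = φ (ψ x)
    rw [l4, k4]

theorem isSmoothIsotopy_id : IsSmoothIsotopy n (fun x : X => x) (fun q => q.2) :=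
  ⟨contMDiff_snd, fun _ => ⟨Diffeomorph.refl _ _ _, fun _ => rfl⟩, fun _ => rfl, fun _ => rfl⟩

theorem invFun_ld {h : E n → X} (hi : Injective h) (hl : ∀ z, LD n h z) (z : E n) :
    LD n (invFun h) (h z) := by
  obtain ⟨p, hp1, hp2, hp3, hp4⟩ := (hl z).exists_inverse
  refine hp1.congr ?_
  filter_upwards [hp4] with w hw2
  rw [← hw2, leftInverse_invFun hi, hw2]

/-- the map of `X` given by `f` in the coordinates `h`, the identity off the image -/
def ext (h : E n → X) (f : E n → E n) (x : X) : X :=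
  open Classical in if x ∈ range h then h (f (invFun h x)) else x

omit [TopologicalSpace X] [ChartedSpace (E n) X] in
theorem ext_of {h : E n → X} (hi : Injective h) (f : E n → E n) (z : E n) :
    ext h f (h z) = h (f z) := by
  unfold ext
  rw [if_pos (mem_range_self z), leftInverse_invFun hi z]

omit [TopologicalSpace X] [ChartedSpace (E n) X] in
theorem ext_off {h : E n → X} (f : E n → E n) {x : X} (hx : x ∉ range h) : ext h f x = x := by
  unfold ext
  rw [if_neg hx]

omit [TopologicalSpace X] [ChartedSpace (E n) X] in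
theorem ext_off' {h : E n → X} (hi : Injective h) {f : E n → E n} {R : ℝ}
    (hf : ∀ z, R ≤ ‖z‖ → f z = z) {x : X} (hx : x ∉ h '' closedBall 0 R) : ext h f x = x := by
  by_cases h1 : x ∈ range h
  · obtain ⟨z, rfl⟩ := h1
    rw [ext_of hi, hf]
    by_contra hcon
    push Not at hcon
    exact hx ⟨z, by simpa using hcon.le, rfl⟩
  · exact ext_off f h1

variable [T2Space X]

theorem ext_isotopy {h : E n → X} (hi : Injective h) (hl : ∀ z, LD n h z) {F : E n → E n}
    {k : ℝ × E n → E n} {R : ℝ} (hk : ContDiff ℝ ∞ k) (h0 : ∀ x, k (0, x) = x)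
    (h1 : ∀ x, k (1, x) = F x) (hR : ∀ t x, R ≤ ‖x‖ → k (t, x) = x)
    (hk2 : ∀ t, Bijective (fun x => k (t, x)) ∧ ∀ x, LD n (fun x => k (t, x)) x) :
    IsSmoothIsotopy n (ext h F) (fun q => ext h (fun x => k (q.1, x)) q.2) := by
  have hc : Continuous h := continuous_iff_continuousAt.2 fun z => (hl z).continuousAt
  have hcl : IsClosed (h '' closedBall 0 R) := ((isCompact_closedBall _ _).image hc).isClosed
  have hopen : IsOpen (range h) := by
    rw [← image_univ]
    exact isOpen_image_of_LD isOpen_univ fun x _ => hl x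
  refine ⟨?_, fun t => ?_, fun x => ?_, fun x => ?_⟩
  · rintro ⟨t, x⟩
    by_cases hx : x ∈ range h
    · obtain ⟨z, rfl⟩ := hx
      have e1 : (fun q : ℝ × X => ext h (fun x => k (q.1, x)) q.2) =ᶠ[𝓝 (t, h z)]
          fun q => h (k (q.1, invFun h q.2)) := by
        have h2 : ∀ᶠ q : ℝ × X in 𝓝 (t, h z), q.2 ∈ range h :=
          continuous_snd.continuousAt.eventually (hopen.mem_nhds (mem_range_self z))
        filter_upwards [h2] with q hq
        unfold ext
        rw [if_pos hq]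
      refine ContMDiffAt.congr_of_eventuallyEq ?_ e1
      have s1 : ContMDiffAt ((𝓘(ℝ, ℝ)).prod (𝓡 n)) (𝓡 n) ∞ (fun q : ℝ × X => invFun h q.2)
          (t, h z) :=
        ContMDiffAt.comp (t, h z) (invFun_ld hi hl z).contMDiffAt contMDiffAt_snd
      have s2 : ContMDiffAt ((𝓘(ℝ, ℝ)).prod (𝓡 n)) ((𝓘(ℝ, ℝ)).prod (𝓡 n)) ∞
          (fun q : ℝ × X => (q.1, invFun h q.2)) (t, h z) := contMDiffAt_fst.prodMk s1
      have s3 : ContMDiff ((𝓘(ℝ, ℝ)).prod (𝓡 n)) (𝓡 n) ∞ k := by
        rw [← modelWithCornersSelf_prod, chartedSpaceSelf_prod]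
        exact hk.contMDiff
      have s4 : ContMDiffAt ((𝓘(ℝ, ℝ)).prod (𝓡 n)) (𝓡 n) ∞
          (fun q : ℝ × X => k (q.1, invFun h q.2)) (t, h z) :=
        ContMDiffAt.comp (t, h z) s3.contMDiffAt s2
      exact ContMDiffAt.comp (t, h z) (hl _).contMDiffAt s4
    · have e1 : (fun q : ℝ × X => ext h (fun x => k (q.1, x)) q.2) =ᶠ[𝓝 (t, x)] fun q => q.2 := by
        have h2 : x ∈ (h '' closedBall 0 R)ᶜ := fun h3 => hx (image_subset_range _ _ h3)
        have h4 : ∀ᶠ q : ℝ × X in 𝓝 (t, x), q.2 ∈ (h '' closedBall 0 R)ᶜ :=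
          continuous_snd.continuousAt.eventually (hcl.isOpen_compl.mem_nhds h2)
        filter_upwards [h4] with q hq
        exact ext_off' hi (hR q.1) hq
      exact ContMDiffAt.congr_of_eventuallyEq contMDiffAt_snd e1
  · obtain ⟨hb, hld⟩ := hk2 t
    have hloc : IsLocalDiffeomorph (𝓡 n) (𝓡 n) ∞ (ext h (fun x => k (t, x))) := by
      intro x
      by_cases hx : x ∈ range h
      · obtain ⟨z, rfl⟩ := hx
        have e1 : ext h (fun x => k (t, x)) =ᶠ[𝓝 (h z)]
            fun x => h ((fun y => k (t, y)) (invFun h x)) := by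
          filter_upwards [hopen.mem_nhds (mem_range_self z)] with x hx
          unfold ext
          rw [if_pos hx]
        refine LD.congr ?_ e1
        refine LD.comp_fun (g := h) (f := fun x => (fun y => k (t, y)) (invFun h x)) (hl _) ?_
        exact LD.comp_fun (g := fun y => k (t, y)) (f := invFun h) (hld _) (invFun_ld hi hl z)
      · have e1 : ext h (fun x => k (t, x)) =ᶠ[𝓝 x] fun x => x := by
          have h2 : x ∈ (h '' closedBall 0 R)ᶜ := fun h3 => hx (image_subset_range _ _ h3)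
          filter_upwards [hcl.isOpen_compl.mem_nhds h2] with y hy
          exact ext_off' hi (hR t) hy
        exact LD.congr ((Diffeomorph.refl (𝓡 n) X ∞).isLocalDiffeomorph x) e1
    have hbij : Bijective (ext h (fun x => k (t, x))) := by
      constructor
      · intro x y hxy
        by_cases hx : x ∈ range h <;> by_cases hy : y ∈ range h
        · obtain ⟨z, rfl⟩ := hx
          obtain ⟨w, rfl⟩ := hy
          rw [ext_of hi, ext_of hi] at hxy
          rw [hb.1 (hi hxy)]
        · obtain ⟨z, rfl⟩ := hx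
          rw [ext_of hi, ext_off _ hy] at hxy
          exact absurd ⟨_, hxy⟩ hy
        · obtain ⟨w, rfl⟩ := hy
          rw [ext_of hi, ext_off _ hx] at hxy
          exact absurd ⟨_, hxy.symm⟩ hx
        · rwa [ext_off _ hx, ext_off _ hy] at hxy
      · intro y
        by_cases hy : y ∈ range h
        · obtain ⟨w, rfl⟩ := hy
          obtain ⟨z, hz⟩ := hb.2 w
          refine ⟨h z, ?_⟩
          rw [ext_of hi]
          exact congrArg h hz
        · exact ⟨y, ext_off _ hy⟩
    exact ⟨hloc.diffeomorphOfBijective hbij, fun x => rfl⟩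
  · show ext h (fun x => k (0, x)) x = x
    by_cases hx : x ∈ range h
    · obtain ⟨z, rfl⟩ := hx
      rw [ext_of hi, h0]
    · exact ext_off _ hx
  · show ext h (fun x => k (1, x)) x = ext h F x
    have : (fun x => k (1, x)) = F := funext h1
    rw [this]

end Pool.Agent.U211.ISO
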