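import Pool.Agent.U211.ISO.Core
import Pool.Agent.U211.BL.Asm

/-!
# The isotopy from a compactly supported map of small distortion to the identity
-/

set_option autoImplicit false

open Set Filter Topology Metric Function MeasureTheory
open scoped Manifold ContDiff unitInterval

noncomputable section

namespace Pool.Agent.U211.ISO

open Pool.Agent.Y522 Pool.Agent.U211.BL

variable {n : ℕ} {r₀ : ℝ} (K : Ker n r₀)

/-- the radius -/
def th (r τ : ℝ) : ℝ := r * (1 - Real.smoothTransition (2 * τ - 1))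

/-- the weight of the identity -/
def sg (τ : ℝ) : ℝ := 1 - Real.smoothTransition (2 * τ)

theorem th_smooth (r : ℝ) : ContDiff ℝ ∞ (th r) := by
  unfold th
  have h : ContDiff ℝ ∞ (fun τ : ℝ => Real.smoothTransition (2 * τ - 1)) :=
    Real.smoothTransition.contDiff.comp (by fun_prop)
  fun_prop

theorem sg_smooth : ContDiff ℝ ∞ sg := by
  unfold sg
  have h : ContDiff ℝ ∞ (fun τ : ℝ => Real.smoothTransition (2 * τ)) :=
    Real.smoothTransition.contDiff.comp (by fun_prop)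
  fun_prop

theorem th_nonneg {r : ℝ} (hr : 0 < r) (τ : ℝ) : 0 ≤ th r τ :=
  mul_nonneg hr.le (sub_nonneg.2 (Real.smoothTransition.le_one _))

theorem th_le {r : ℝ} (hr : 0 < r) (τ : ℝ) : th r τ ≤ r := by
  unfold th
  have := Real.smoothTransition.nonneg (2 * τ - 1)
  nlinarith

theorem sg_nonneg (τ : ℝ) : 0 ≤ sg τ := sub_nonneg.2 (Real.smoothTransition.le_one _)

theorem sg_le (τ : ℝ) : sg τ ≤ 1 := by
  unfold sg
  linarith [Real.smoothTransition.nonneg (2 * τ)]

/-- the isotopy -/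
def path (F : E n → E n) (r : ℝ) (q : ℝ × E n) : E n :=
  (1 - sg q.1) • FM K F (th r q.1) q.2 + sg q.1 • q.2

theorem path_smooth {F : E n → E n} (hF : ContDiff ℝ ∞ F) (r : ℝ) : ContDiff ℝ ∞ (path K F r) := by
  unfold path
  have h1 : ContDiff ℝ ∞ (fun q : ℝ × E n => FM K F (th r q.1) q.2) :=
    (FM_smooth K hF).comp (contDiff_snd.prodMk ((th_smooth r).comp contDiff_fst))
  have h2 : ContDiff ℝ ∞ (fun q : ℝ × E n => sg q.1) := sg_smooth.comp contDiff_fst
  exact ((contDiff_const.sub h2).smul h1).add (h2.smul contDiff_snd)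

theorem path_zero (F : E n → E n) (r : ℝ) (x : E n) : path K F r (0, x) = x := by
  have h : sg 0 = 1 := by
    unfold sg
    rw [mul_zero, Real.smoothTransition.zero, sub_zero]
  unfold path
  simp only [h]
  simp

theorem path_one (F : E n → E n) (r : ℝ) (x : E n) : path K F r (1, x) = F x := by
  have h : sg 1 = 0 := by
    unfold sg
    rw [Real.smoothTransition.one_of_one_le (by norm_num), sub_self]
  have h2 : th r 1 = 0 := by
    unfold th
    rw [Real.smoothTransition.one_of_one_le (by norm_num), sub_self, mul_zero]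
  unfold path
  simp only [h, h2, FM_zero]
  simp

theorem path_off {F : E n → E n} {R r : ℝ} (hr : 0 < r) (h : ∀ x, R ≤ ‖x‖ → F x = x) (τ : ℝ)
    {x : E n} (hx : R + r ≤ ‖x‖) : path K F r (τ, x) = x := by
  unfold path
  have h1 : FM K F (th r τ) x = x := by
    refine FM_off K (r := r) ?_ h hx
    rw [abs_of_nonneg (th_nonneg hr τ)]
    exact th_le hr τ
  show (1 - sg τ) • FM K F (th r τ) x + sg τ • x = x
  rw [h1, ← add_smul, sub_add_cancel, one_smul]

/-- a lower bound for the derivative -/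
theorem deriv_lower {F : E n → E n} {D : E n →L[ℝ] E n} {x : E n} {a r : ℝ}
    (hD : HasFDerivAt F D x) (ha : 0 < a) (hr : 0 < r)
    (h : ∀ p q : E n, ‖p - x‖ ≤ r → ‖q - x‖ ≤ r → a * ‖p - q‖ ≤ ‖F p - F q‖) {w : E n}
    (hw : ‖w‖ = 1) : D w ≠ 0 := by
  intro h0
  have h1 := hD.isLittleO.def (c := a / 2) (by positivity)
  obtain ⟨ε, hε, h2⟩ := Metric.eventually_nhds_iff.1 h1
  obtain ⟨s, hs⟩ : ∃ s, s = min (ε / 2) r := ⟨_, rfl⟩
  have hs0 : 0 < s := by
    rw [hs]
    exact lt_min (by positivity) hr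
  have hs1 : s ≤ ε / 2 := by
    rw [hs]
    exact min_le_left _ _
  have hs2 : s ≤ r := by
    rw [hs]
    exact min_le_right _ _
  have hn : ‖(x + s • w) - x‖ = s := by
    rw [add_sub_cancel_left, norm_smul, hw, mul_one, Real.norm_of_nonneg hs0.le]
  have h3 := h2 (y := x + s • w) (by rw [dist_eq_norm, hn]; linarith)
  have h4 := h (x + s • w) x (by rw [hn]; exact hs2) (by rw [sub_self, norm_zero]; exact hr.le)
  rw [hn] at h3 h4
  have h5 : D ((x + s • w) - x) = 0 := by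
    rw [add_sub_cancel_left, map_smul, h0, smul_zero]
  rw [h5, sub_zero] at h3
  nlinarith

theorem path_deriv (hr0 : 0 < r₀) {F : E n → E n} (hF : ContDiff ℝ ∞ F) {ρ δ r : ℝ}
    (hρ : 1 ≤ ρ) (hρn : (ρ ^ 2 - 1) * Real.sqrt n < (ρ ^ 2 + 1) * r₀)
    (hδn : δ * Real.sqrt n < r₀) (hr : 0 < r) (hcl : ∀ x, ‖F x - x‖ ≤ δ * r)
    (hd : ∀ x : E n, ∃ a > 0, ∀ p q : E n, ‖p - x‖ ≤ r → ‖q - x‖ ≤ r →
      a * ‖p - q‖ ≤ ‖F p - F q‖ ∧ ‖F p - F q‖ ≤ ρ * (a * ‖p - q‖)) (τ : ℝ) (x : E n) {w : E n}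
    (hw : ‖w‖ = 1) : fderiv ℝ (fun y => path K F r (τ, y)) x w ≠ 0 := by
  obtain ⟨a, ha, had⟩ := hd x
  rcases le_or_gt τ (1 / 2) with hτ | hτ
  · have h1 : th r τ = r := by
      unfold th
      rw [Real.smoothTransition.zero_of_nonpos (by linarith), sub_zero, mul_one]
    obtain ⟨D, hD, hDw⟩ := FM_deriv_close K hr0 hF.continuous (x := x) hr hcl hw
    have h2 : HasFDerivAt (fun y => path K F r (τ, y))
        ((1 - sg τ) • D + sg τ • ContinuousLinearMap.id ℝ (E n)) x := by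
      unfold path
      simp only [h1]
      exact (hD.const_smul (1 - sg τ)).add ((hasFDerivAt_id x).const_smul (sg τ))
    rw [h2.fderiv]
    intro h0
    have h3 : (1 - sg τ) • (D w - w) + w = 0 := by
      rw [← h0]
      show _ = (1 - sg τ) • D w + sg τ • w
      rw [smul_sub, sub_smul 1 (sg τ) w, one_smul]
      abel
    have h4 : ‖w‖ = (1 - sg τ) * ‖D w - w‖ := by
      rw [eq_neg_of_add_eq_zero_right h3, norm_neg, norm_smul, Real.norm_of_nonneg
        (by linarith [sg_le τ])]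
      rw [← eq_neg_of_add_eq_zero_right h3]
    have h5 : δ * (Real.sqrt n / r₀) < 1 := by
      rw [← mul_div_assoc, div_lt_one hr0]
      exact hδn
    have h6 : (1 - sg τ) * ‖D w - w‖ ≤ 1 * ‖D w - w‖ :=
      mul_le_mul_of_nonneg_right (by linarith [sg_nonneg τ]) (norm_nonneg _)
    linarith
  · have h1 : sg τ = 0 := by
      unfold sg
      rw [Real.smoothTransition.one_of_one_le (by linarith), sub_self]
    have h2 : (fun y => path K F r (τ, y)) = FM K F (th r τ) := by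
      funext y
      unfold path
      simp only [h1]
      simp
    rw [h2]
    rcases (th_nonneg hr τ).eq_or_lt with h3 | h3
    · have h4 : FM K F (th r τ) = F := by
        funext y
        rw [← h3]
        exact FM_zero K F y
      rw [h4]
      exact deriv_lower (hF.differentiable (by simp) x).hasFDerivAt ha hr
        (fun p q hp hq => (had p q hp hq).1) hw
    · have h5 : ∀ p ∈ closedBall x (th r τ), ‖p - x‖ ≤ r := by
        intro p hp
        rw [mem_closedBall, dist_eq_norm] at hp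
        exact hp.trans (th_le hr τ)
      obtain ⟨D, hD, hDw⟩ := FM_deriv_ne K hr0 hF.continuous ha hρ hρn h3
        (fun p hp q hq => (had p q (h5 p hp) (h5 q hq)).1)
        (fun p hp q hq => (had p q (h5 p hp) (h5 q hq)).2) hw
      rw [hD.fderiv]
      exact hDw

/-- **The isotopy in `ℝⁿ`.** -/
theorem exists_path {ρ δ r R : ℝ} (hρ : 1 ≤ ρ) (hρn : (ρ ^ 2 - 1) * Real.sqrt n < ρ ^ 2 + 1)
    (hδn : δ * Real.sqrt n < 1) (hr : 0 < r) {F : E n → E n} (hF : ContDiff ℝ ∞ F)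
    (hR : ∀ x, R ≤ ‖x‖ → F x = x) (hcl : ∀ x, ‖F x - x‖ ≤ δ * r)
    (hd : ∀ x : E n, ∃ a > 0, ∀ p q : E n, ‖p - x‖ ≤ r → ‖q - x‖ ≤ r →
      a * ‖p - q‖ ≤ ‖F p - F q‖ ∧ ‖F p - F q‖ ≤ ρ * (a * ‖p - q‖)) :
    ∃ k : ℝ × E n → E n, ContDiff ℝ ∞ k ∧ (∀ x, k (0, x) = x) ∧ (∀ x, k (1, x) = F x) ∧
      (∀ t x, R + r ≤ ‖x‖ → k (t, x) = x) ∧
      ∀ t, Bijective (fun x => k (t, x)) ∧ ∀ x, LD n (fun x => k (t, x)) x := by
  have hq : 0 < ρ ^ 2 + 1 := by positivity
  obtain ⟨m, hm⟩ : ∃ m, m = max (max ((ρ ^ 2 - 1) * Real.sqrt n / (ρ ^ 2 + 1))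
    (δ * Real.sqrt n)) 0 := ⟨_, rfl⟩
  have hm1 : m < 1 := by
    rw [hm]
    refine max_lt (max_lt ?_ hδn) one_pos
    rw [div_lt_one hq]
    exact hρn
  have hm0 : 0 ≤ m := by
    rw [hm]
    exact le_max_right _ _
  obtain ⟨r₀, hr₀⟩ : ∃ r₀, r₀ = (m + 1) / 2 := ⟨_, rfl⟩
  have h0 : 0 < r₀ := by rw [hr₀]; linarith
  have h1 : r₀ < 1 := by rw [hr₀]; linarith
  have h2 : m < r₀ := by rw [hr₀]; linarith
  have h3 : (ρ ^ 2 - 1) * Real.sqrt n < (ρ ^ 2 + 1) * r₀ := by
    have : (ρ ^ 2 - 1) * Real.sqrt n / (ρ ^ 2 + 1) < r₀ := by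
      refine lt_of_le_of_lt ?_ h2
      rw [hm]
      exact (le_max_left _ _).trans (le_max_left _ _)
    rw [div_lt_iff₀ hq] at this
    linarith
  have h4 : δ * Real.sqrt n < r₀ := by
    refine lt_of_le_of_lt ?_ h2
    rw [hm]
    exact (le_max_right _ _).trans (le_max_left _ _)
  obtain ⟨K⟩ := exists_ker n h0 h1
  refine ⟨path K F r, path_smooth K hF r, path_zero K F r, path_one K F r,
    fun t x hx => path_off K hr hR t hx, fun t => ?_⟩
  have hs : ContDiff ℝ ∞ (fun x => path K F r (t, x)) :=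
    (path_smooth K hF r).comp (contDiff_prodMk_right t)
  have hLD : ∀ x, LD n (fun x => path K F r (t, x)) x := fun x =>
    LD_of_pos (Eventually.of_forall fun y => hs.contDiffAt)
      fun w hw => path_deriv K h0 hF hρ h3 h4 hr hcl hd t x hw
  refine ⟨?_, hLD⟩
  have hl : IsLocalDiffeomorph (𝓡 n) (𝓡 n) ∞ (fun x => path K F r (t, x)) := hLD
  exact bij_of_id_off hl.isLocalHomeomorph fun x hx => path_off K hr hR t hx

end Pool.Agent.U211.ISO
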